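import Mathlib
import Pool.Agent.V11145.TriangleMultipartite
import Pool.Agent.V11145.SidorenkoClosure

/-!
# MP_be0ce5_co : Sidorenko's inequality for regular graphs with complete multipartite components
-/

namespace Pool.Agent.Results.MP_be0ce5_co.RegularMultipartite

open SimpleGraph Pool.Agent.V11145.SidorenkoClosure

/-- `R(3,G)`: the least `n` such that the complement of every triangle-free graph on `n` vertices
contains a (not necessarily induced) copy of `G`. -/
noncomputable def ramsey3 {W : Type} (G : SimpleGraph W) : ℕ :=
  sInf {n : ℕ | ∀ H : SimpleGraph (Fin n), H.CliqueFree 3 → G ⊑ Hᶜ}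

/-- Every component of `G` is a complete multipartite graph: inside each component non-adjacency
is transitive. -/
def ComponentsMultipartite {W : Type} (G : SimpleGraph W) : Prop :=
  ∀ C : G.ConnectedComponent, (G.induce C.supp).IsCompleteMultipartite

/-- The inductive step, for arbitrary sets that are unions of components. -/
lemma built_of_components {W : Type} [Fintype W] [DecidableEq W] (G : SimpleGraph W)
    [DecidableRel G.Adj] (hG : ComponentsMultipartite G)
    {V : Type} [Nonempty V] [DecidableEq V] (H : SimpleGraph V) [DecidableRel H.Adj]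
    (hH : H.CliqueFree 3) :
    ∀ (n : ℕ) (A : Finset W), A.card = n → (∀ a ∈ A, ∀ b, G.Adj a b → b ∈ A) →
      ∀ U : Finset V, A.card + ee G A ≤ U.card → Emb G H A U := by
  classical
  intro n
  induction n using Nat.strong_induction_on with
  | _ n ih =>
    intro A hAn hcl U hU
    rcases A.eq_empty_or_nonempty with rfl | ⟨v, hv⟩
    · exact built_embed G H hH ∅ Built.empty U hU
    have hreach : ∀ a b, G.Reachable a b → a ∈ A → b ∈ A := by
      intro a b hab
      obtain ⟨w⟩ := hab
      induction w with
      | nil => exact id
      | cons h _ ih2 => exact fun ha => ih2 (hcl _ ha _ h)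
    let C : Finset W := A.filter (fun a => G.Reachable v a)
    let D : Finset W := A.filter (fun a => ¬ G.Reachable v a)
    have hCD : Disjoint C D := Finset.disjoint_filter_filter_not A A _
    have hun : C ∪ D = A := Finset.filter_union_filter_not_eq _ _
    have hvC : v ∈ C := Finset.mem_filter.2 ⟨hv, SimpleGraph.Reachable.refl v⟩
    have hcard : C.card + D.card = A.card := Finset.card_filter_add_card_filter_not _
    have hCpos : 0 < C.card := Finset.card_pos.2 ⟨v, hvC⟩
    have hDcl : ∀ a ∈ D, ∀ b, G.Adj a b → b ∈ D := by
      intro a ha b hab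
      have ha' := Finset.mem_filter.1 ha
      refine Finset.mem_filter.2 ⟨hcl a ha'.1 b hab, fun h => ha'.2 ?_⟩
      exact h.trans hab.symm.reachable
    have hD : ∀ U : Finset V, D.card + ee G D ≤ U.card → Emb G H D U :=
      ih D.card (by omega) D rfl hDcl
    have hC : ∀ U : Finset V, C.card + ee G C ≤ U.card → Emb G H C U := by
      intro U hU
      -- reduce to the theorem on complete multipartite graphs
      have hmul : (G.induce (C : Set W)).IsCompleteMultipartite := by
        have h1 := hG (G.connectedComponentMk v)
        have hmem : ∀ a ∈ C, a ∈ (G.connectedComponentMk v).supp := by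
          intro a ha
          rw [SimpleGraph.ConnectedComponent.mem_supp_iff, SimpleGraph.ConnectedComponent.eq]
          exact (Finset.mem_filter.1 ha).2.symm
        refine ⟨?_⟩
        intro a b c hab hbc hac
        exact h1.trans ⟨a, hmem a a.2⟩ ⟨b, hmem b b.2⟩ ⟨c, hmem c c.2⟩ hab hbc hac
      refine emb_of_sidorenko G C ?_ H hH U hU
      intro n hn K hK
      exact Pool.Agent.V11145.TriangleMultipartite.sidorenko_multipartite _ hmul K hK
        (by simpa using hn)
    have hstep := glue_step G H hH C D hCD (by
      have h0 : (C.filter (fun a => ∃ b ∈ D, G.Adj a b)) = ∅ := by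
        rw [Finset.filter_eq_empty_iff]
        rintro a ha ⟨b, hb, hab⟩
        exact (Finset.mem_filter.1 hb).2 ((Finset.mem_filter.1 ha).2.trans hab.reachable)
      rw [h0, Finset.card_empty, zero_mul, add_zero]
      unfold ee
      apply Nat.div_le_div_right
      unfold Pool.Agent.V11145.TriangleMultipartite.dd
      refine (Finset.sum_le_sum (fun a _ => Finset.card_le_card
        (Finset.filter_subset_filter _ (Finset.subset_union_right (s₁ := C))))).trans ?_
      exact Finset.sum_le_sum_of_subset Finset.subset_union_right) hC hD U (by rw [hun]; exact hU)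
    rw [hun] at hstep
    exact hstep

lemma components_hold {W : Type} [Fintype W] (G : SimpleGraph W)
    (hG : ComponentsMultipartite G) : SidorenkoHolds G := by
  classical
  intro n hn H hH
  rcases isEmpty_or_nonempty W with hW | hW
  · refine ⟨⟨⟨fun w => (hW.false w).elim, ?_⟩, ?_⟩⟩
    · intro a; exact (hW.false a).elim
    · intro a; exact (hW.false a).elim
  have hn0 : 0 < n := by
    have := Fintype.card_pos_iff.2 hW
    omega
  have : Nonempty (Fin n) := ⟨⟨0, hn0⟩⟩
  apply contained_of_emb
  refine built_of_components G hG H hH (Finset.univ : Finset W).card Finset.univ rfl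
    (fun _ _ b _ => Finset.mem_univ b) Finset.univ ?_
  rw [ee_univ]
  simpa using hn

/-- Sidorenko's inequality `R(3,G) <= k + m` holds for every regular graph `G` all of whose
components are complete multipartite graphs (`k` vertices, `m` edges), and in fact also without
regularity: the complement of every triangle-free graph on `n >= k + m` vertices contains `G`. -/
theorem result :
    (∀ (W : Type) [Fintype W] (G : SimpleGraph W) [DecidableRel G.Adj] (d : ℕ),
      G.IsRegularOfDegree d → ComponentsMultipartite G →
      ramsey3 G ≤ Fintype.card W + G.edgeSet.ncard) ∧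
    (∀ (W : Type) [Fintype W] (G : SimpleGraph W), ComponentsMultipartite G →
      ramsey3 G ≤ Fintype.card W + G.edgeSet.ncard ∧
        ∀ n : ℕ, Fintype.card W + G.edgeSet.ncard ≤ n → ∀ H : SimpleGraph (Fin n),
          H.CliqueFree 3 → G ⊑ Hᶜ) :=
  ⟨fun _ _ G _ _ _ hG => Nat.sInf_le (fun H hH => components_hold G hG _ le_rfl H hH),
    fun _ _ G hG => ⟨Nat.sInf_le (fun H hH => components_hold G hG _ le_rfl H hH),
      components_hold G hG⟩⟩

end Pool.Agent.Results.MP_be0ce5_co.RegularMultipartite
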